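import Pool.Agent.H41.CP.Stmts

set_option autoImplicit false

/-!
# Project CP: `bb : S_BB`, `hall3 : S_HALL3`
-/

namespace Pool.Agent.H280.CP

open Pool.Agent.H41.CP Finset

lemma inv_app (f : P6) (x : Fin 6) : f⁻¹ (f x) = x := Equiv.symm_apply_apply f x

lemma app_inv (f : P6) (x : Fin 6) : f (f⁻¹ x) = x := Equiv.apply_symm_apply f x

/-- Hall's theorem: without a permutation avoiding the sets `A x` there is a large rectangle inside `A`. -/
lemma hall (A : Fin 6 → Finset (Fin 6)) (h : ¬ ∃ s : P6, ∀ x, s x ∉ A x) :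
    ∃ S T : Finset (Fin 6), 7 ≤ S.card + T.card ∧ ∀ x ∈ S, ∀ c ∈ T, c ∈ A x := by
  by_contra hc
  push Not at hc
  apply h
  have h1 : ∀ S : Finset (Fin 6), S.card ≤ (S.biUnion fun x => (A x)ᶜ).card := by
    intro S
    by_contra h2
    push Not at h2
    have h3 : 7 ≤ S.card + ((S.biUnion fun x => (A x)ᶜ)ᶜ).card := by
      rw [card_compl, Fintype.card_fin]
      omega
    obtain ⟨x, hx, c, hc1, hc2⟩ := hc S _ h3
    rw [mem_compl, mem_biUnion] at hc1
    exact hc1 ⟨x, hx, mem_compl.2 hc2⟩
  obtain ⟨f, hf, hft⟩ := (Finset.all_card_le_biUnion_card_iff_exists_injective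
    fun x => (A x)ᶜ).1 h1
  refine ⟨Equiv.ofBijective f (Finite.injective_iff_bijective.1 hf), fun x => ?_⟩
  exact mem_compl.1 (hft x)

/-- the values of four permutations -/
def VV (F : Fin 3 → P6) (g : P6) (x : Fin 6) : Finset (Fin 6) :=
  insert (g x) (univ.image fun i => F i x)

lemma VV_card (F : Fin 3 → P6) (g : P6) (x : Fin 6) : (VV F g x).card ≤ 4 := by
  unfold VV
  refine (card_insert_le _ _).trans ?_
  have h1 : (univ.image fun i => F i x).card ≤ (univ : Finset (Fin 3)).card := card_image_le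
  rw [card_univ, Fintype.card_fin] at h1
  omega

lemma mem_VV {F : Fin 3 → P6} {g : P6} {x c : Fin 6} :
    c ∈ VV F g x ↔ x ∈ VV (inv3 F) g⁻¹ c := by
  unfold VV inv3
  rw [mem_insert, mem_insert, mem_image, mem_image]
  constructor
  · rintro (h | ⟨i, _, h⟩)
    · left
      rw [h, inv_app]
    · right
      exact ⟨i, mem_univ _, by rw [← h, inv_app]⟩
  · rintro (h | ⟨i, _, h⟩)
    · left
      rw [h, app_inv]
    · right
      exact ⟨i, mem_univ _, by rw [← h, app_inv]⟩

theorem bb : S_BB := by
  intro F g hbad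
  have h1 : ¬ ∃ s : P6, ∀ x, s x ∉ VV F g x := by
    rintro ⟨s, hs⟩
    apply hbad
    refine ⟨s, fun x => ⟨fun h => ?_, fun i h => ?_⟩⟩
    · apply hs x
      rw [h]
      exact mem_insert_self _ _
    · apply hs x
      rw [h]
      exact mem_insert_of_mem (mem_image_of_mem (fun i => F i x) (mem_univ i))
  obtain ⟨S, T, hST, h2⟩ := hall _ h1
  have hS6 : S.card ≤ 6 := by
    have := card_le_univ S
    rwa [Fintype.card_fin] at this
  have hT6 : T.card ≤ 6 := by
    have := card_le_univ T
    rwa [Fintype.card_fin] at this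
  obtain ⟨x0, hx0⟩ : S.Nonempty := by
    rw [← card_pos]
    omega
  obtain ⟨c0, hc0⟩ : T.Nonempty := by
    rw [← card_pos]
    omega
  have hT4 : T.card ≤ 4 := (card_le_card fun c hc => h2 x0 hx0 c hc).trans (VV_card F g x0)
  have hS4 : S.card ≤ 4 :=
    (card_le_card fun x hx => mem_VV.1 (h2 x hx c0 hc0)).trans (VV_card (inv3 F) g⁻¹ c0)
  rcases Nat.lt_or_ge T.card 4 with hlt | hge
  · right
    refine ⟨S, T, by omega, by omega, fun c hc => ?_⟩
    symm
    apply eq_of_subset_of_card_le
    · intro x hx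
      exact mem_VV.1 (h2 x hx c hc)
    · exact (VV_card (inv3 F) g⁻¹ c).trans (by omega)
  · left
    obtain ⟨S', hS', hS'3⟩ := exists_subset_card_eq (show 3 ≤ S.card by omega)
    refine ⟨S', T, hS'3, by omega, fun x hx => ?_⟩
    symm
    apply eq_of_subset_of_card_le
    · intro c hc
      exact h2 x (hS' hx) c hc
    · exact (VV_card F g x).trans (by omega)

theorem hall3 : S_HALL3 := by
  intro H a b ca cb
  by_contra hcon
  have h1 : ¬ ∃ s : P6, ∀ x, s x ∉ (univ.image fun i => H i x) ∪
      ((if x = a then {ca} else ∅) ∪ (if x = b then {cb} else ∅)) := by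
    rintro ⟨s, hs⟩
    apply hcon
    refine ⟨s, fun i x h => ?_, fun h => ?_, fun h => ?_⟩
    · apply hs x
      rw [h]
      exact mem_union_left _ (mem_image_of_mem (fun i => H i x) (mem_univ i))
    · apply hs a
      rw [h, if_pos rfl]
      exact mem_union_right _ (mem_union_left _ (mem_singleton_self _))
    · apply hs b
      rw [h, if_pos rfl]
      exact mem_union_right _ (mem_union_right _ (mem_singleton_self _))
  obtain ⟨S, T, hST, h2⟩ := hall _ h1
  have hS6 : S.card ≤ 6 := by
    have := card_le_univ S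
    rwa [Fintype.card_fin] at this
  have hT6 : T.card ≤ 6 := by
    have := card_le_univ T
    rwa [Fintype.card_fin] at this
  obtain ⟨P, hP⟩ : ∃ P : Finset (Fin 6 × Fin 6), P = (S ×ˢ T).filter fun z => ∃ i, H i z.1 = z.2 :=
    ⟨_, rfl⟩
  have h3 : S ×ˢ T ⊆ P ∪ {(a, ca), (b, cb)} := by
    rintro ⟨x, c⟩ hz
    have hz' := hz
    rw [mem_product] at hz
    have h4 := h2 x hz.1 c hz.2
    rw [mem_union, mem_union, mem_image] at h4
    rw [mem_union, hP, mem_filter]
    rcases h4 with ⟨i, _, h4⟩ | h4 | h4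
    · left
      exact ⟨hz', i, h4⟩
    · right
      split_ifs at h4 with h5
      · rw [mem_singleton] at h4
        rw [h5, h4]
        exact mem_insert_self _ _
      · exact absurd h4 (notMem_empty _)
    · right
      split_ifs at h4 with h5
      · rw [mem_singleton] at h4
        rw [h5, h4]
        exact mem_insert_of_mem (mem_singleton_self _)
      · exact absurd h4 (notMem_empty _)
  have h4 : S.card * T.card ≤ P.card + 2 := by
    rw [← card_product]
    refine (card_le_card h3).trans ((card_union_le _ _).trans ?_)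
    have : ({(a, ca), (b, cb)} : Finset (Fin 6 × Fin 6)).card ≤ 2 := card_le_two
    omega
  have h5 : P.card ≤ 3 * S.card := by
    have h6 : P ⊆ (univ ×ˢ S : Finset (Fin 3 × Fin 6)).image fun z => (z.2, H z.1 z.2) := by
      rintro ⟨x, c⟩ hz
      rw [hP, mem_filter, mem_product] at hz
      obtain ⟨⟨hx, _⟩, i, hi⟩ := hz
      rw [mem_image]
      exact ⟨(i, x), mem_product.2 ⟨mem_univ _, hx⟩, Prod.ext rfl hi⟩
    refine (card_le_card h6).trans (card_image_le.trans ?_)
    rw [card_product, card_univ, Fintype.card_fin]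
  have h7 : P.card ≤ 3 * T.card := by
    have h6 : P ⊆ (univ ×ˢ T : Finset (Fin 3 × Fin 6)).image fun z => ((H z.1)⁻¹ z.2, z.2) := by
      rintro ⟨x, c⟩ hz
      rw [hP, mem_filter, mem_product] at hz
      obtain ⟨⟨_, hc⟩, i, hi⟩ := hz
      rw [mem_image]
      refine ⟨(i, c), mem_product.2 ⟨mem_univ _, hc⟩, Prod.ext ?_ rfl⟩
      change (H i)⁻¹ c = x
      have hi' : H i x = c := hi
      rw [← hi', inv_app]
    refine (card_le_card h6).trans (card_image_le.trans ?_)
    rw [card_product, card_univ, Fintype.card_fin]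
  generalize S.card = s at *
  generalize T.card = t at *
  generalize P.card = p at *
  interval_cases s <;> interval_cases t <;> omega

end Pool.Agent.H280.CP
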